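import Pool.Agent.Helper65.NX.Goals
import Pool.Agent.Helper72.HC.WCS

/-!
# Packet NW-STEP: one step of a cell
-/

namespace Pool.Agent.Helper65.NX.K7

open Pool.Agent.Helper65.LinSpace Pool.Agent.Helper78.Mpc Pool.Agent.Helper28.Ram Finset Filter
open Pool.Agent.Helper65.NX
open Pool.Agent.Helper11.Ram (capN_zero num_eq_bval)
open Pool.Agent.Helper72.HC (length_bits_le)

theorem hdN_num {P : Prm} {w : List Bool} (hx : P.x = num w) (t : ℕ) (p z : List Bool) :
    P.hdN t (num p) (num z) = num (hd w.length t p z) := by
  unfold Prm.hdN hd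
  rw [hx, log_num, bitsN_eq, bitsN_eq, sdN_num, sdN_num, sdN_num, sdN_num, catN_num, catN_num,
    catN_num]

theorem length_hd_le {w p z : List Bool} {k t : ℕ} (hw : w.length < 2 ^ k) (ht : t < 2 ^ k)
    (hp : p.length ≤ k) (hz : z.length ≤ k) : (hd w.length t p z).length ≤ 8 * k + 4 := by
  have a1 := length_bits_le hw
  have a2 := length_bits_le ht
  unfold hd
  simp only [List.length_append, length_sd]
  omega

theorem ltN_num (w : List Bool) (j : ℕ) : ltN (num w) j = num w[j]?.toList := by
  unfold ltN
  rw [letN_num]
  rcases w[j]? with _ | b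
  · rfl
  · cases b <;> rfl

theorem bvalN_num (u : List Bool) : bvalN (num u) = bval u := by
  unfold bvalN
  rw [log_num, num_eq_bval]
  omega

theorem view_succ (A : Net) (n : ℕ) (p : List Bool) (t : ℕ) (v : List Bool → List Bool)
    (z : List Bool) (i : ℕ) :
    A.view n p t v z (i + 1) = A.view n p t v z i ++ sd (v (A.inp n p t z i)) := rfl

theorem viewN_succ (P : Prm) (p t z X i : ℕ) :
    P.viewN p t z X (i + 1) = catN (P.viewN p t z X i) (sdN (dig (2 ^ (P.S + 1)) X i)) := rfl

theorem viewN_num {A : Net} {w p z : List Bool} {P : Prm} {t X : ℕ}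
    {v : List Bool → List Bool} (hx : P.x = num w)
    (hX : ∀ i < A.deg, dig (2 ^ (P.S + 1)) X i = num (v (A.inp w.length p t z i))) (i : ℕ)
    (hi : i ≤ A.deg) :
    P.viewN (num p) t (num z) X i = num (A.view w.length p t v z i) := by
  induction i with
  | zero => exact hdN_num hx t p z
  | succ i ih =>
    rw [viewN_succ, ih (by omega), hX i (by omega), sdN_num, catN_num, view_succ]

theorem length_view {A : Net} {w p z : List Bool} {S t : ℕ}
    {v : List Bool → List Bool}
    (hv : ∀ i < A.deg, (v (A.inp w.length p t z i)).length ≤ S) (i : ℕ) (hi : i ≤ A.deg) :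
    (A.view w.length p t v z i).length ≤ (hd w.length t p z).length + 2 * i * (S + 1) := by
  induction i with
  | zero =>
    show (hd w.length t p z).length ≤ _
    omega
  | succ i ih =>
    rw [view_succ, List.length_append, length_sd]
    have h1 := ih (by omega)
    have h2 := hv i (by omega)
    have h3 : 2 * (i + 1) * (S + 1) = 2 * i * (S + 1) + 2 * (S + 1) := by ring
    omega

theorem length_toList_le (w : List Bool) (j : ℕ) : (w[j]?.toList).length ≤ 1 := by
  rcases w[j]? with _ | b
  · exact Nat.zero_le 1
  · exact le_rfl

theorem capN_ite' (S : ℕ) (u : List Bool) :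
    capN S (if u.length ≤ S then num u else 0) = if u.length ≤ S then num u else 0 := by
  split_ifs with h
  · exact capN_num h
  · exact capN_zero S

/-- Packet NW-STEP. -/
theorem step : STEP_stmt := by
  intro A
  obtain ⟨eA, cA, hA⟩ := fnN_spec A.addr_lin
  obtain ⟨eX, cX, hXs⟩ := fnN_spec A.next_lin
  refine ⟨eA, eX, cA + cX, ?_⟩
  intro w y p z P k t X v heA heX hdg hx hy hzp hpZ hZk hwk htk hX hv hΛ hβ hM hM'
  have hview := viewN_num (A := A) (z := z) hx hX A.deg le_rfl
  have hlen : (A.view w.length p t v z A.deg).length ≤ 8 * k + 4 + 2 * A.deg * (P.S + 1) := by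
    have h1 := length_view (A := A) (w := w) (p := p) (z := z) (t := t) hv A.deg le_rfl
    have h2 : (hd w.length t p z).length ≤ 8 * k + 4 :=
      length_hd_le hwk htk (by omega) (by omega)
    omega
  have hbig : (2 * A.deg + 2) * (P.S + 1) = 2 * A.deg * (P.S + 1) + 2 * P.S + 2 := by ring
  have hadr : ∀ b : Bool, P.adrN (num (b :: A.view w.length p t v z A.deg)) =
      if (A.addr (b :: A.view w.length p t v z A.deg)).length ≤ P.Z then
        num (A.addr (b :: A.view w.length p t v z A.deg)) else 0 := by
    intro b
    unfold Prm.adrN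
    rw [heA, hA _ P.Z P.Λ P.β P.M ?_ ?_ hM']
    · refine le_trans (Nat.mul_le_mul (Nat.le_add_right cA cX) ?_) hΛ
      simp only [List.length_cons]
      omega
    · simp only [List.length_cons]
      omega
  have hc2 : catN 2 (num (A.view w.length p t v z A.deg)) =
      num (false :: A.view w.length p t v z A.deg) :=
    catN_num [false] (A.view w.length p t v z A.deg)
  have hc3 : catN 3 (num (A.view w.length p t v z A.deg)) =
      num (true :: A.view w.length p t v z A.deg) :=
    catN_num [true] (A.view w.length p t v z A.deg)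
  rw [hdg, hview]
  unfold Prm.nxtN
  rw [hc2, hc3, hadr, hadr]
  by_cases h1 : (A.addr (false :: A.view w.length p t v z A.deg)).length ≤ P.Z
  · by_cases h1' : (A.addr (true :: A.view w.length p t v z A.deg)).length ≤ P.Z
    · have hne : num (A.addr (false :: A.view w.length p t v z A.deg)) ≠ 0 := (num_pos _).ne'
      have hne' : num (A.addr (true :: A.view w.length p t v z A.deg)) ≠ 0 := (num_pos _).ne'
      have hst : A.step w y p t v z = A.next
          (sd w[bval (A.addr (false :: A.view w.length p t v z A.deg))]?.toList ++
            (sd y[bval (A.addr (true :: A.view w.length p t v z A.deg))]?.toList ++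
              A.view w.length p t v z A.deg)) := rfl
      have hl1 := length_toList_le w (bval (A.addr (false :: A.view w.length p t v z A.deg)))
      have hl2 := length_toList_le y (bval (A.addr (true :: A.view w.length p t v z A.deg)))
      have hall : ∀ b, (A.addr (b :: A.view w.length p t v z A.deg)).length ≤ P.Z := by
        intro b
        cases b
        · exact h1
        · exact h1'
      rw [if_pos h1, if_pos h1', ifz_ne hne, ifz_ne hne', bvalN_num, bvalN_num, hx, hy, ltN_num,
        ltN_num, sdN_num, sdN_num, catN_num, catN_num, heX, hXs _ P.S P.Λ P.β P.M ?_ ?_ hM, ← hst,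
        capN_ite']
      · simp only [hall, implies_true, true_and]
      · refine le_trans (Nat.mul_le_mul (Nat.le_add_left cX cA) ?_) hΛ
        simp only [List.length_append, length_sd]
        omega
      · simp only [List.length_append, length_sd]
        omega
    · rw [if_neg h1', ifz_zero]
      have h2 : ∀ a : ℕ, ifz a 0 0 = 0 := fun a => by
        unfold ifz
        split_ifs <;> rfl
      rw [h2, capN_zero, if_neg fun h => h1' (h.1 true)]
  · rw [if_neg h1, ifz_zero, capN_zero, if_neg fun h => h1 (h.1 false)]

end Pool.Agent.Helper65.NX.K7
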